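import Pool.Agent.Helper13.NF.Defs

/-!
Project NF, module M4: levels.
-/

set_option autoImplicit false
open Finset

namespace Pool.Agent.Helper13.NF

section h37

/-- the point of `Fin (p * w)` with given residues -/
noncomputable def h37_emb {p w : ℕ} (hp : 0 < p) (hw : 0 < w) (hcop : Nat.Coprime p w)
    (a : Fin p) (x : Fin w) : Fin (p * w) :=
  ⟨Nat.chineseRemainder hcop a x, Nat.chineseRemainder_lt_mul hcop a x hp.ne' hw.ne'⟩

theorem h37_emb_left {p w : ℕ} (hp : 0 < p) (hw : 0 < w) (hcop : Nat.Coprime p w)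
    (a : Fin p) (x : Fin w) : (h37_emb hp hw hcop a x : ℕ) ≡ (a : ℕ) [MOD p] :=
  (Nat.chineseRemainder hcop a x).2.1

theorem h37_emb_right {p w : ℕ} (hp : 0 < p) (hw : 0 < w) (hcop : Nat.Coprime p w)
    (a : Fin p) (x : Fin w) : (h37_emb hp hw hcop a x : ℕ) ≡ (x : ℕ) [MOD w] :=
  (Nat.chineseRemainder hcop a x).2.2

theorem h37_emb_inj {p w : ℕ} (hp : 0 < p) (hw : 0 < w) (hcop : Nat.Coprime p w)
    {a a' : Fin p} {x x' : Fin w} (h : h37_emb hp hw hcop a x = h37_emb hp hw hcop a' x') :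
    a = a' ∧ x = x' := by
  constructor
  · have h1 := h37_emb_left hp hw hcop a x
    have h2 := h37_emb_left hp hw hcop a' x'
    rw [h] at h1
    exact Fin.ext ((h1.symm.trans h2).eq_of_lt_of_lt a.2 a'.2)
  · have h1 := h37_emb_right hp hw hcop a x
    have h2 := h37_emb_right hp hw hcop a' x'
    rw [h] at h1
    exact Fin.ext ((h1.symm.trans h2).eq_of_lt_of_lt x.2 x'.2)

/-- rearrangement of the elements -/
def h37_R {C Iz Ik Ic K : Type} :
    ((Iz ⊕ ((Ik × Bool) ⊕ ((Ic × Bool) ⊕ (C × K)))) × Bool) ⊕ C →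
      ((Iz × Bool) ⊕ C) ⊕ ((((Ik ⊕ Ic) × Bool) ⊕ (C × K)) × Bool)
  | .inl (.inl z, b) => .inl (.inl (z, b))
  | .inl (.inr (.inl (i, s)), b) => .inr (.inl (.inl i, b), s)
  | .inl (.inr (.inr (.inl (i, b'))), b) => .inr (.inl (.inr i, b'), b)
  | .inl (.inr (.inr (.inr ck)), b) => .inr (.inr ck, b)
  | .inr c => .inl (.inr c)

/-- a left inverse of the rearrangement -/
def h37_Q {C Iz Ik Ic K : Type} :
    ((Iz × Bool) ⊕ C) ⊕ ((((Ik ⊕ Ic) × Bool) ⊕ (C × K)) × Bool) →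
      ((Iz ⊕ ((Ik × Bool) ⊕ ((Ic × Bool) ⊕ (C × K)))) × Bool) ⊕ C
  | .inl (.inl (z, b)) => .inl (.inl z, b)
  | .inr (.inl (.inl i, b), s) => .inl (.inr (.inl (i, s)), b)
  | .inr (.inl (.inr i, b'), b) => .inl (.inr (.inr (.inl (i, b'))), b)
  | .inr (.inr ck, b) => .inl (.inr (.inr (.inr ck)), b)
  | .inl (.inr c) => .inr c

theorem h37_R_inj {C Iz Ik Ic K : Type} : Function.Injective (h37_R (C := C) (Iz := Iz) (Ik := Ik)
    (Ic := Ic) (K := K)) := by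
  refine Function.LeftInverse.injective (g := h37_Q) ?_
  rintro (⟨z | ⟨i, s⟩ | ⟨i, b'⟩ | ck, b⟩ | c) <;> rfl

/-- the common part of both theorems -/
theorem h37_core {C Iz Ik Ic : Type} (α w : ℕ) (hw : 0 < w)
    (hcop : Nat.Coprime (2 * α + 1) w) (τz : Iz → ℕ) (τk : Ik → ℕ)
    (hz : ∀ i, τz i ∣ w) (hk : ∀ i, τk i ∣ w)
    (ez : (Iz × Bool) ⊕ C → C × Fin w) (hez : Function.Injective ez)
    (hez1 : ∀ c, (ez (Sum.inr c)).1 = c)
    (hez2 : ∀ i, (ez (Sum.inl (i, true))).1 = (ez (Sum.inl (i, false))).1 ∧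
      ((ez (Sum.inl (i, true))).2 : ℕ) ≡ ((ez (Sum.inl (i, false))).2 : ℕ) [MOD τz i])
    (ey : ((Ik ⊕ Ic) × Bool) ⊕ (C × Fin α) → (C × Fin α) × Fin w)
    (hey : Function.Injective ey)
    (hey2 : ∀ i : Ik, (ey (Sum.inl (Sum.inl i, true))).1 = (ey (Sum.inl (Sum.inl i, false))).1 ∧
      ((ey (Sum.inl (Sum.inl i, true))).2 : ℕ) ≡ ((ey (Sum.inl (Sum.inl i, false))).2 : ℕ)
        [MOD τk i]) :
    ∃ E : ((Iz ⊕ ((Ik × Bool) ⊕ ((Ic × Bool) ⊕ (C × Fin α)))) × Bool) ⊕ C →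
        C × Fin ((2 * α + 1) * w), Function.Injective E ∧
      (∀ c, (E (Sum.inr c)).1 = c ∧ ((E (Sum.inr c)).2 : ℕ) ≡ ((ez (Sum.inr c)).2 : ℕ) [MOD w]) ∧
      (∀ z, (E (Sum.inl (Sum.inl z, true))).1 = (E (Sum.inl (Sum.inl z, false))).1 ∧
        ((E (Sum.inl (Sum.inl z, true))).2 : ℕ) ≡ ((E (Sum.inl (Sum.inl z, false))).2 : ℕ)
          [MOD (2 * α + 1) * τz z]) ∧
      (∀ q : Ik × Bool, (E (Sum.inl (Sum.inr (Sum.inl q), true))).1 =
          (E (Sum.inl (Sum.inr (Sum.inl q), false))).1 ∧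
        ((E (Sum.inl (Sum.inr (Sum.inl q), true))).2 : ℕ) ≡
          ((E (Sum.inl (Sum.inr (Sum.inl q), false))).2 : ℕ) [MOD (2 * α + 1) * τk q.1]) ∧
      (∀ q : (Ic × Bool) ⊕ (C × Fin α), (E (Sum.inl (Sum.inr (Sum.inr q), true))).1 =
          (E (Sum.inl (Sum.inr (Sum.inr q), false))).1 ∧
        ((E (Sum.inl (Sum.inr (Sum.inr q), true))).2 : ℕ) ≡
          ((E (Sum.inl (Sum.inr (Sum.inr q), false))).2 : ℕ) [MOD w]) ∧
      (∀ (q : Ik × Bool) (b : Bool), (E (Sum.inl (Sum.inr (Sum.inl q), b))).1 =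
          (ey (Sum.inl (Sum.inl q.1, b))).1.1 ∧
        ((E (Sum.inl (Sum.inr (Sum.inl q), b))).2 : ℕ) ≡
          ((ey (Sum.inl (Sum.inl q.1, b))).2 : ℕ) [MOD w]) := by
  have hp : 0 < 2 * α + 1 := Nat.succ_pos _
  have hcard : Fintype.card (Unit ⊕ (Fin α × Bool)) = 2 * α + 1 := by
    simp
    ring
  let lev : Unit ⊕ (Fin α × Bool) ≃ Fin (2 * α + 1) := Fintype.equivFinOfCardEq hcard
  let M : ((Iz × Bool) ⊕ C) ⊕ ((((Ik ⊕ Ic) × Bool) ⊕ (C × Fin α)) × Bool) →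
      C × Fin ((2 * α + 1) * w) := Sum.elim
    (fun u => ((ez u).1, h37_emb hp hw hcop (lev (Sum.inl ())) (ez u).2))
    (fun u => ((ey u.1).1.1, h37_emb hp hw hcop (lev (Sum.inr ((ey u.1).1.2, u.2))) (ey u.1).2))
  have hM : Function.Injective M := by
    rintro (u | ⟨u, s⟩) (u' | ⟨u', s'⟩) h
    · simp only [M, Sum.elim_inl, Prod.mk.injEq] at h
      obtain ⟨h1, h2⟩ := h
      obtain ⟨-, h3⟩ := h37_emb_inj hp hw hcop h2
      rw [hez (Prod.ext h1 h3)]
    · exfalso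
      simp only [M, Sum.elim_inl, Sum.elim_inr, Prod.mk.injEq] at h
      obtain ⟨h3, -⟩ := h37_emb_inj hp hw hcop h.2
      have := lev.injective h3
      exact Sum.inl_ne_inr this
    · exfalso
      simp only [M, Sum.elim_inl, Sum.elim_inr, Prod.mk.injEq] at h
      obtain ⟨h3, -⟩ := h37_emb_inj hp hw hcop h.2
      have := lev.injective h3
      exact Sum.inr_ne_inl this
    · simp only [M, Sum.elim_inr, Prod.mk.injEq] at h
      obtain ⟨h1, h2⟩ := h
      obtain ⟨h3, h4⟩ := h37_emb_inj hp hw hcop h2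
      have h5 := Sum.inr_injective (lev.injective h3)
      rw [Prod.mk.injEq] at h5
      have h6 : u = u' := hey (Prod.ext (Prod.ext h1 h5.1) h4)
      rw [h6, h5.2]
  -- two points in the same level
  have hlev : ∀ (a : Fin (2 * α + 1)) (x x' : Fin w) (τ : ℕ), τ ∣ w → (x : ℕ) ≡ (x' : ℕ) [MOD τ] →
      (h37_emb hp hw hcop a x : ℕ) ≡ (h37_emb hp hw hcop a x' : ℕ) [MOD (2 * α + 1) * τ] := by
    intro a x x' τ hτ hx
    have hc : Nat.Coprime (2 * α + 1) τ := Nat.Coprime.coprime_dvd_right hτ hcop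
    refine (Nat.modEq_and_modEq_iff_modEq_mul hc).1 ⟨?_, ?_⟩
    · exact (h37_emb_left hp hw hcop a x).trans (h37_emb_left hp hw hcop a x').symm
    · exact ((h37_emb_right hp hw hcop a x).of_dvd hτ).trans
        (hx.trans ((h37_emb_right hp hw hcop a x').of_dvd hτ).symm)
  refine ⟨M ∘ h37_R, hM.comp h37_R_inj, ?_, ?_, ?_, ?_, ?_⟩
  · intro c
    exact ⟨hez1 c, h37_emb_right hp hw hcop _ _⟩
  · intro z
    exact ⟨(hez2 z).1, hlev _ _ _ _ (hz z) (hez2 z).2⟩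
  · rintro ⟨i, s⟩
    obtain ⟨h1, h2⟩ := hey2 i
    have h0 : (ey (Sum.inl (Sum.inl i, true))).1.1 = (ey (Sum.inl (Sum.inl i, false))).1.1 :=
      congrArg Prod.fst h1
    refine ⟨h0, ?_⟩
    have h3 := hlev (lev (Sum.inr ((ey (Sum.inl (Sum.inl i, false))).1.2, s)))
      _ _ _ (hk i) h2
    have h4 : (ey (Sum.inl (Sum.inl i, true))).1.2 = (ey (Sum.inl (Sum.inl i, false))).1.2 :=
      congrArg Prod.snd h1
    change (h37_emb hp hw hcop (lev (Sum.inr ((ey (Sum.inl (Sum.inl i, true))).1.2, s)))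
      (ey (Sum.inl (Sum.inl i, true))).2 : ℕ) ≡ _ [MOD _]
    rw [h4]
    exact h3
  · rintro (⟨i, b'⟩ | ck)
    · exact ⟨rfl, (h37_emb_right hp hw hcop _ _).trans (h37_emb_right hp hw hcop _ _).symm⟩
    · exact ⟨rfl, (h37_emb_right hp hw hcop _ _).trans (h37_emb_right hp hw hcop _ _).symm⟩
  · rintro ⟨i, s⟩ b
    exact ⟨rfl, h37_emb_right hp hw hcop _ _⟩

end h37

theorem TReal.levels {C Iz Ik Ic : Type} (α w : ℕ) (hw : 0 < w)
    (hcop : Nat.Coprime (2 * α + 1) w) (τz : Iz → ℕ) (τk : Ik → ℕ) (τc : Ic → ℕ)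
    (hz : ∀ i, τz i ∣ w) (hk : ∀ i, τk i ∣ w)
    (Hz : TReal C Iz w τz)
    (Hy : TReal (C × Fin α) (Ik ⊕ Ic) w (Sum.elim τk τc)) :
    TReal C (Iz ⊕ ((Ik × Bool) ⊕ ((Ic × Bool) ⊕ (C × Fin α)))) ((2 * α + 1) * w)
      (Sum.elim (fun i => (2 * α + 1) * τz i) (Sum.elim (fun i => (2 * α + 1) * τk i.1)
        (Sum.elim (fun _ => w) (fun _ => w)))) := by
  obtain ⟨ez, hez, hez1, hez2⟩ := Hz
  obtain ⟨ey, hey, hey1, hey2⟩ := Hy
  obtain ⟨E, hE, h1, h2, h3, h4, -⟩ := h37_core α w hw hcop τz τk hz hk ez hez hez1 hez2 ey hey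
    (fun i => hey2 (Sum.inl i))
  refine ⟨E, hE, fun c => (h1 c).1, ?_⟩
  rintro (z | q | q | q)
  · exact h2 z
  · exact h3 q
  · exact h4 (Sum.inl q)
  · exact h4 (Sum.inr q)

theorem TReal.levels_switch {C Iz Ik Ic : Type} [DecidableEq C] [DecidableEq Ik] (α w : ℕ)
    (hw : 0 < w) (hcop : Nat.Coprime (2 * α + 1) w) (τz : Iz → ℕ) (τk : Ik → ℕ) (τc : Ic → ℕ)
    (hz : ∀ i, τz i ∣ w) (hk : ∀ i, τk i ∣ w) (hc : ∀ i, τc i ∣ w)
    (Hz : TReal C Iz w τz)
    (Hy : TReal (C × Fin α) (Ik ⊕ Ic) w (Sum.elim τk τc)) (i0 : Ik) :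
    TReal C (Iz ⊕ ((Ik × Bool) ⊕ ((Ic × Bool) ⊕ (C × Fin α)))) ((2 * α + 1) * w)
      (Sum.elim (fun i => (2 * α + 1) * τz i)
        (Sum.elim (fun i => if i = (i0, true) then w else (2 * α + 1) * τk i.1)
        (Sum.elim (fun _ => w) (fun _ => w)))) := by
  classical
  obtain ⟨ez, hez, hez1, hez2⟩ := Hz
  obtain ⟨ey, hey, hey1, hey2⟩ := Hy
  have : NeZero w := ⟨hw.ne'⟩
  -- the shift
  set u0 := ey (Sum.inl (Sum.inl i0, true)) with hu0
  let c0 : C := u0.1.1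
  let s : Fin w := (ez (Sum.inr c0)).2 - u0.2
  let sh : (C × Fin α) × Fin w → (C × Fin α) × Fin w := fun q =>
    (q.1, if q.1 = u0.1 then q.2 + s else q.2)
  have hsh : Function.Injective sh := by
    rintro ⟨a, x⟩ ⟨a', x'⟩ h
    simp only [sh, Prod.mk.injEq] at h
    obtain ⟨rfl, h2⟩ := h
    by_cases ha : a = u0.1
    · rw [if_pos ha, if_pos ha] at h2
      rw [add_right_cancel h2]
    · rw [if_neg ha, if_neg ha] at h2
      rw [h2]
  have hshmod : ∀ (q q' : (C × Fin α) × Fin w) (τ : ℕ), τ ∣ w → q.1 = q'.1 →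
      (q.2 : ℕ) ≡ (q'.2 : ℕ) [MOD τ] → ((sh q).2 : ℕ) ≡ ((sh q').2 : ℕ) [MOD τ] := by
    intro q q' τ hτ h1 h2
    simp only [sh]
    rw [h1]
    by_cases ha : q'.1 = u0.1
    · rw [if_pos ha, if_pos ha]
      have e1 : ∀ x : Fin w, ((x + s : Fin w) : ℕ) ≡ (x : ℕ) + (s : ℕ) [MOD τ] := by
        intro x
        rw [Fin.val_add]
        exact (Nat.mod_modEq _ w).of_dvd hτ
      exact (e1 _).trans ((h2.add_right _).trans (e1 _).symm)
    · rw [if_neg ha, if_neg ha]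
      exact h2
  have hdiv : ∀ i : Ik ⊕ Ic, Sum.elim τk τc i ∣ w := by
    rintro (i | i)
    · exact hk i
    · exact hc i
  obtain ⟨E, hE, h1, h2, h3, h4, h5⟩ := h37_core α w hw hcop τz τk hz hk ez hez hez1 hez2
    (fun q => sh (ey q)) (hsh.comp hey)
    (fun i => ⟨(hey2 (Sum.inl i)).1, hshmod _ _ _ (hk i) (hey2 (Sum.inl i)).1
      (hey2 (Sum.inl i)).2⟩)
  -- the swap
  let P : ((Iz ⊕ ((Ik × Bool) ⊕ ((Ic × Bool) ⊕ (C × Fin α)))) × Bool) ⊕ C := Sum.inr c0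
  let Q : ((Iz ⊕ ((Ik × Bool) ⊕ ((Ic × Bool) ⊕ (C × Fin α)))) × Bool) ⊕ C :=
    Sum.inl (Sum.inr (Sum.inl (i0, true)), false)
  have hcopy : (E Q).1 = c0 := by
    have e1 := (h5 (i0, true) false).1
    have e2 : (ey (Sum.inl (Sum.inl i0, false))).1 = u0.1 := ((hey2 (Sum.inl i0)).1).symm
    change (E Q).1 = (ey (Sum.inl (Sum.inl i0, false))).1.1 at e1
    rw [e1, e2]
  let E' : ((Iz ⊕ ((Ik × Bool) ⊕ ((Ic × Bool) ⊕ (C × Fin α)))) × Bool) ⊕ C →
      C × Fin ((2 * α + 1) * w) := fun r => E (Equiv.swap P Q r)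
  refine ⟨E', hE.comp (Equiv.swap P Q).injective, ?_, ?_⟩
  · intro c
    by_cases hcc : c = c0
    · have : (Sum.inr c : ((Iz ⊕ ((Ik × Bool) ⊕ ((Ic × Bool) ⊕ (C × Fin α)))) × Bool) ⊕ C) = P := by
        rw [hcc]
      change (E (Equiv.swap P Q (Sum.inr c))).1 = c
      rw [this, Equiv.swap_apply_left, hcopy, hcc]
    · have e1 : (Sum.inr c : ((Iz ⊕ ((Ik × Bool) ⊕ ((Ic × Bool) ⊕ (C × Fin α)))) × Bool) ⊕ C) ≠ P :=
        fun h => hcc (Sum.inr_injective h)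
      change (E (Equiv.swap P Q (Sum.inr c))).1 = c
      rw [Equiv.swap_apply_of_ne_of_ne e1 Sum.inr_ne_inl]
      exact (h1 c).1
  · have hne : ∀ (j : Iz ⊕ ((Ik × Bool) ⊕ ((Ic × Bool) ⊕ (C × Fin α)))) (b : Bool),
        j ≠ Sum.inr (Sum.inl (i0, true)) → E' (Sum.inl (j, b)) = E (Sum.inl (j, b)) := by
      intro j b hj
      have : Equiv.swap P Q (Sum.inl (j, b)) = Sum.inl (j, b) := by
        refine Equiv.swap_apply_of_ne_of_ne Sum.inl_ne_inr fun h => hj ?_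
        exact congrArg Prod.fst (Sum.inl_injective h)
      change E (Equiv.swap P Q (Sum.inl (j, b))) = E (Sum.inl (j, b))
      rw [this]
    rintro (z | q | q | q)
    · rw [hne _ _ Sum.inl_ne_inr, hne _ _ Sum.inl_ne_inr]
      exact h2 z
    · by_cases hq : q = (i0, true)
      · subst hq
        have e1 : E' (Sum.inl (Sum.inr (Sum.inl (i0, true)), true)) =
            E (Sum.inl (Sum.inr (Sum.inl (i0, true)), true)) := by
          have : Equiv.swap P Q (Sum.inl (Sum.inr (Sum.inl (i0, true)), true)) =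
              Sum.inl (Sum.inr (Sum.inl (i0, true)), true) := by
            refine Equiv.swap_apply_of_ne_of_ne Sum.inl_ne_inr fun h => ?_
            have := congrArg Prod.snd (Sum.inl_injective h)
            exact Bool.noConfusion this
          change E (Equiv.swap P Q _) = _
          rw [this]
        have e2 : E' (Sum.inl (Sum.inr (Sum.inl (i0, true)), false)) = E P := by
          change E (Equiv.swap P Q Q) = _
          rw [Equiv.swap_apply_right]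
        rw [e1, e2]
        obtain ⟨g1, g2⟩ := h5 (i0, true) true
        obtain ⟨g3, g4⟩ := h1 c0
        have g5 : (sh u0).2 = (ez (Sum.inr c0)).2 := by
          change (if u0.1 = u0.1 then u0.2 + s else u0.2) = _
          rw [if_pos rfl]
          change u0.2 + ((ez (Sum.inr c0)).2 - u0.2) = _
          abel
        constructor
        · rw [g1]
          exact g3.symm
        · have g6 : (Sum.elim (fun i => (2 * α + 1) * τz i)
              (Sum.elim (fun i : Ik × Bool => if i = (i0, true) then w else (2 * α + 1) * τk i.1)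
              (Sum.elim (fun _ : Ic × Bool => w) (fun _ : C × Fin α => w))))
              (Sum.inr (Sum.inl (i0, true))) = w := by
            simp
          rw [g6]
          refine g2.trans ?_
          change ((sh u0).2 : ℕ) ≡ _ [MOD w]
          rw [g5]
          exact g4.symm
      · have hj : (Sum.inr (Sum.inl q) : Iz ⊕ ((Ik × Bool) ⊕ ((Ic × Bool) ⊕ (C × Fin α)))) ≠
            Sum.inr (Sum.inl (i0, true)) :=
          fun h => hq (Sum.inl_injective (Sum.inr_injective h))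
        rw [hne _ _ hj, hne _ _ hj]
        have g6 : (Sum.elim (fun i => (2 * α + 1) * τz i)
              (Sum.elim (fun i : Ik × Bool => if i = (i0, true) then w else (2 * α + 1) * τk i.1)
              (Sum.elim (fun _ : Ic × Bool => w) (fun _ : C × Fin α => w))))
              (Sum.inr (Sum.inl q)) = (2 * α + 1) * τk q.1 := by
          simp [hq]
        rw [g6]
        exact h3 q
    · have hj : (Sum.inr (Sum.inr (Sum.inl q)) : Iz ⊕ ((Ik × Bool) ⊕ ((Ic × Bool) ⊕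
          (C × Fin α)))) ≠ Sum.inr (Sum.inl (i0, true)) :=
        fun h => Sum.inr_ne_inl (Sum.inr_injective h)
      rw [hne _ _ hj, hne _ _ hj]
      exact h4 (Sum.inl q)
    · have hj : (Sum.inr (Sum.inr (Sum.inr q)) : Iz ⊕ ((Ik × Bool) ⊕ ((Ic × Bool) ⊕
          (C × Fin α)))) ≠ Sum.inr (Sum.inl (i0, true)) :=
        fun h => Sum.inr_ne_inl (Sum.inr_injective h)
      rw [hne _ _ hj, hne _ _ hj]
      exact h4 (Sum.inr q)

end Pool.Agent.Helper13.NF
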